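import Pool.Agent.Lib.MP_346ebc_an.Tree

/-! The mean weight of a random dyadic triangulation. -/

open scoped ENNReal
open Set MeasureTheory Function Real

noncomputable section

namespace Pool.Agent.Lib.MP_346ebc_an

theorem per_int {T : ℝ} (hT : 0 < T) {g : ℝ → ℝ≥0∞} (hg : Periodic g T) (s : ℝ) :
    ∫⁻ x in Ioc 0 T, g (x + s) = ∫⁻ x in Ioc 0 T, g x := by
  have h1 := (isAddFundamentalDomain_Ioc hT s).setLIntegral_eq (isAddFundamentalDomain_Ioc hT 0) g
    (by rintro ⟨_, n, rfl⟩ x; exact (congrArg g (add_comm _ _)).trans (hg.zsmul n x))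
  have h2 := (measurePreserving_add_right volume s).setLIntegral_comp_preimage_emb
    (measurableEmbedding_addRight s) g (Ioc s (s + T))
  rw [preimage_add_const_Ioc, sub_self, add_sub_cancel_left] at h2
  rw [h2, h1, zero_add]

theorem half_int (g : ℝ → ℝ≥0∞) (c : ℝ) :
    ∫⁻ h in Ioc c (2 * c), g (h / 2) = 2 * ∫⁻ h in Ioc (c / 2) (2 * (c / 2)), g h := by
  have e : MeasurableEmbedding fun h : ℝ => (1 / 2 : ℝ) * h :=
    measurableEmbedding_mulLeft₀ (by norm_num)
  have h1 := e.restrict_map volume (Ioc (c / 2) (2 * (c / 2)))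
  have h2 := e.lintegral_map (μ := volume.restrict ((fun h : ℝ => (1 / 2 : ℝ) * h) ⁻¹'
    Ioc (c / 2) (2 * (c / 2)))) g
  rw [← h1, Real.map_volume_mul_left (by norm_num), Measure.restrict_smul, lintegral_smul_measure,
    preimage_const_mul_Ioc₀ _ _ (by norm_num)] at h2
  rw [show c / 2 / (1 / 2) = c by ring, show 2 * (c / 2) / (1 / 2) = 2 * c by ring] at h2
  simp only [one_div, inv_inv, abs_two, ENNReal.ofReal_ofNat, smul_eq_mul] at h2
  simp only [div_eq_inv_mul] at *
  exact h2.symm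

theorem refl_int (g : ℝ → ℝ≥0∞) (c : ℝ) :
    ∫⁻ h in Ioc c (2 * c), g (3 * c - h) = ∫⁻ h in Ioc c (2 * c), g h := by
  have h2 := (Measure.measurePreserving_sub_left volume (3 * c)).setLIntegral_comp_preimage_emb
    (MeasurableEquiv.subLeft (3 * c)).measurableEmbedding g (Ico c (2 * c))
  rw [preimage_const_sub_Ico, show 3 * c - 2 * c = c by ring, show 3 * c - c = 2 * c by ring] at h2
  rw [h2, restrict_Ico_eq_restrict_Ioc]

variable {N : Type} [EMetricSpace N] (F : C(ℝ, N)) (e : ℝ≥0∞)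

theorem bad_meas : MeasurableSet {z : ℝ × ℝ | e ≤ edist (F z.2) (F z.1)} :=
  (isClosed_le continuous_const (by fun_prop)).measurableSet

theorem chi_meas : Measurable fun z : ℝ × ℝ => chi F e z.1 z.2 :=
  Measurable.ite (bad_meas F e) measurable_const measurable_const

theorem wt_meas (k : ℕ) : Measurable fun z : ℝ × ℝ => wt F e k z.1 z.2 := by
  induction k with
  | zero => exact measurable_const
  | succ k ih =>
    exact ((chi_meas F e).comp (f := fun z : ℝ × ℝ => (z.1, z.1 + z.2)) (by fun_prop)).add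
      ((ih.comp (f := fun z : ℝ × ℝ => (z.1, z.2 / 2)) (by fun_prop)).add
        (ih.comp (f := fun z : ℝ × ℝ => (z.1 + z.2 / 2, z.2 / 2)) (by fun_prop)))

variable {F} {T : ℝ} (hF : ∀ x, F (x + T) = F x)

include hF in
theorem wt_per (k : ℕ) : ∀ h, Periodic (fun x => wt F e k x h) T := by
  induction k with
  | zero => exact fun _ _ => rfl
  | succ k ih =>
    intro h x
    have h1 := ih (h / 2) x
    have h2 := ih (h / 2) (x + h / 2)
    simp only [wt, chi, add_right_comm x T, hF] at h1 h2 ⊢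
    rw [h1, h2]

variable (F T)

/-- The weight integrated over the starting point. -/
def sw (k : ℕ) (h : ℝ) : ℝ≥0∞ := ∫⁻ x in Ioc 0 T, wt F e k x h

theorem sw_meas (k : ℕ) : Measurable (sw F e T k) := (wt_meas F e k).lintegral_prod_left'

theorem wt_meas' (k : ℕ) (h : ℝ) : Measurable fun x => wt F e k x h :=
  (wt_meas F e k).comp (f := fun x : ℝ => (x, h)) (by fun_prop)

variable {F T}

include hF in
theorem sw_succ (hT : 0 < T) (k : ℕ) (h : ℝ) : sw F e T (k + 1) h =
    (∫⁻ x in Ioc 0 T, chi F e x (x + h)) + 2 * sw F e T k (h / 2) := by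
  have h1 : Measurable fun x => chi F e x (x + h) :=
    (chi_meas F e).comp (f := fun x : ℝ => (x, x + h)) (by fun_prop)
  simp only [sw, wt]
  rw [lintegral_add_left h1,
    lintegral_add_left (wt_meas' F e k _), per_int hT (wt_per e hF k (h / 2)), two_mul]

include hF in
theorem sw_le (hT : 0 < T) {K : ℝ → ℝ → ℝ≥0∞}
    (hK : ∀ x h, 0 < h → chi F e x (x + h) ≤ ENNReal.ofReal (h ^ 2) * K x (x + h)) (k : ℕ) :
    ∀ c : ℝ, 0 < c → ∫⁻ h in Ioc c (2 * c), sw F e T k h ≤
      ENNReal.ofReal (4 * c ^ 2) * ∫⁻ h in Ioc 0 (2 * c), ∫⁻ x in Ioc 0 T, K x (x + h) := by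
  induction k with
  | zero => simp [sw, wt]
  | succ k ih =>
    intro c hc
    have hs : Measurable fun h => sw F e T k (h / 2) := (sw_meas F e T k).comp (by fun_prop)
    simp only [sw_succ e hF hT]
    rw [lintegral_add_right _ (hs.const_mul 2), lintegral_const_mul _ hs, half_int,
      ← Ioc_union_Ioc_eq_Ioc hc.le (by linarith : c ≤ 2 * c),
      lintegral_union measurableSet_Ioc (Ioc_disjoint_Ioc_of_le le_rfl), mul_add, add_comm]
    refine add_le_add ?_ ?_
    · have h1 := ih (c / 2) (by linarith)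
      rw [show 2 * (c / 2) = c by ring] at h1 ⊢
      rw [show 4 * c ^ 2 = 4 * (4 * (c / 2) ^ 2) by ring, ENNReal.ofReal_mul (by norm_num),
        ENNReal.ofReal_ofNat, mul_assoc, ← mul_assoc 2 2, show (2 * 2 : ℝ≥0∞) = 4 by norm_num]
      exact mul_le_mul_right h1 _
    · rw [← lintegral_const_mul' _ _ ENNReal.ofReal_ne_top]
      refine setLIntegral_mono' measurableSet_Ioc fun h hh => ?_
      rw [← lintegral_const_mul' _ _ ENNReal.ofReal_ne_top]
      refine lintegral_mono fun x => (hK x h (hc.trans hh.1)).trans ?_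
      exact mul_le_mul_left (ENNReal.ofReal_le_ofReal (by nlinarith [hh.1, hh.2])) _

theorem exists_le {s : Set ℝ} {m : ℝ} (hm : 0 < m) (hs : volume s = ENNReal.ofReal m)
    {g : ℝ → ℝ≥0∞} (hg : Measurable g) : ∃ x ∈ s, ENNReal.ofReal m * g x ≤ ∫⁻ y in s, g y := by
  have h0 : ENNReal.ofReal m ≠ 0 := by simpa using hm
  obtain ⟨x, hx, h⟩ := exists_le_setLAverage (μ := volume) (s := s) (hs ▸ h0)
    (hs ▸ ENNReal.ofReal_ne_top) hg.aemeasurable
  rw [setLAverage_eq, hs, ENNReal.le_div_iff_mul_le (.inl h0) (.inl ENNReal.ofReal_ne_top),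
    mul_comm] at h
  exact ⟨x, hx, h⟩

/-- Some triangulation has small weight. -/
theorem exists_wt {c : ℝ} (hc : 0 < c) (hF : ∀ x, F (x + 3 * c) = F x) {K : ℝ → ℝ → ℝ≥0∞}
    (hm : Measurable fun z : ℝ × ℝ => K z.1 z.2) (hp : ∀ x, Periodic (K x) (3 * c))
    (hK : ∀ x h, 0 < h → chi F e x (x + h) ≤ ENNReal.ofReal (h ^ 2) * K x (x + h)) (k : ℕ) :
    ∃ x, ∃ t ∈ Ioc c (2 * c), 4 * (wt F e k x t + wt F e k (x + t) (3 * c - t)) ≤
      32 / 3 * ∫⁻ x in Ioc 0 (3 * c), ∫⁻ y in Ioc 0 (3 * c), K x y := by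
  have hT : 0 < 3 * c := by linarith
  have hs := sw_meas F e (3 * c) k
  obtain ⟨t, ht, h1⟩ := exists_le (s := Ioc c (2 * c)) hc (by simp [two_mul])
    (hs.add (hs.comp (measurable_id.const_sub (3 * c))))
  obtain ⟨x, -, h2⟩ := exists_le (s := Ioc 0 (3 * c)) hT (by simp)
    ((wt_meas' F e k t).add ((wt_meas' F e k (3 * c - t)).comp (measurable_id.add_const t)))
  refine ⟨x, t, ht, ?_⟩
  simp only [Pi.add_apply, comp_apply, id] at h1 h2
  rw [lintegral_add_left (wt_meas' F e k t), per_int hT (wt_per e hF k (3 * c - t))] at h2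
  rw [lintegral_add_left hs, refl_int (sw F e (3 * c) k), ← two_mul] at h1
  have h3 := sw_le e hF hT hK k c hc
  have h4 : ∫⁻ h in Ioc 0 (2 * c), ∫⁻ x in Ioc 0 (3 * c), K x (x + h) ≤
      ∫⁻ x in Ioc 0 (3 * c), ∫⁻ y in Ioc 0 (3 * c), K x y := by
    refine (lintegral_mono_set (Ioc_subset_Ioc_right (by linarith : 2 * c ≤ 3 * c))).trans ?_
    have h0 : Measurable (uncurry fun h x => K x (x + h)) :=
      hm.comp (f := fun z : ℝ × ℝ => (z.2, z.2 + z.1)) (by fun_prop)
    rw [lintegral_lintegral_swap h0.aemeasurable]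
    refine le_of_eq (lintegral_congr fun x => ?_)
    simp only [add_comm x]
    exact per_int hT (hp x) x
  have h5 := ((mul_le_mul_right h2 (ENNReal.ofReal c)).trans h1).trans
    (mul_le_mul_right (h3.trans (mul_le_mul_right h4 _)) 2)
  generalize (∫⁻ x in Ioc 0 (3 * c), ∫⁻ y in Ioc 0 (3 * c), K x y) = J at h5 ⊢
  generalize wt F e k x t + wt F e k (x + t) (3 * c - t) = W at h5 ⊢
  have h0 : ENNReal.ofReal c ≠ 0 := by simpa using hc
  rw [ENNReal.ofReal_mul (by norm_num), ENNReal.ofReal_mul (by norm_num),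
    ENNReal.ofReal_pow hc.le, ENNReal.ofReal_ofNat, ENNReal.ofReal_ofNat] at h5
  have h6 : ENNReal.ofReal c ^ 2 * (3 * W) ≤ ENNReal.ofReal c ^ 2 * (8 * J) :=
    (le_of_eq (by ring)).trans (h5.trans (le_of_eq (by ring)))
  rw [ENNReal.mul_le_mul_iff_right (pow_ne_zero 2 h0)
    (ENNReal.pow_ne_top ENNReal.ofReal_ne_top)] at h6
  rw [div_eq_mul_inv, mul_right_comm, ← div_eq_mul_inv,
    ENNReal.le_div_iff_mul_le (.inl (by norm_num)) (.inl (by norm_num))]
  exact (le_of_eq (by ring)).trans ((mul_le_mul_right h6 4).trans (le_of_eq (by ring)))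

end Pool.Agent.Lib.MP_346ebc_an
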