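import Pool.Agent.Lib.MP_346ebc_an.Avg

/-! The decomposition in a metric space with short paths and contractible small loops. -/

open scoped ENNReal
open Set MeasureTheory Function Real

noncomputable section

namespace Pool.Agent.Lib.MP_346ebc_an

theorem chord_le (x y : ℝ) : ‖(Circle.exp y : ℂ) - Circle.exp x‖ ≤ |y - x| := by
  have h : (Circle.exp y : ℂ) - Circle.exp x =
      Circle.exp x * (Complex.exp (Complex.I * (y - x : ℝ)) - 1) := by
    rw [mul_sub, mul_one, Circle.coe_exp, Circle.coe_exp, ← Complex.exp_add]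
    congr 2
    push_cast
    ring
  rw [h, norm_mul, Circle.norm_coe, one_mul]
  exact Real.norm_exp_I_mul_ofReal_sub_one_le

variable {N : Type} [EMetricSpace N]

theorem dec_loop {ε : ℝ} (hε : 0 < ε)
    (H1 : ∀ a b : N, edist b a < ENNReal.ofReal ε → ∃ s : Path a b, len s ≤ ENNReal.ofReal ε)
    (H2 : ∀ (a b : N) (s t : Path a b), (∀ x, edist a (s x) ≤ 2 * ENNReal.ofReal ε) →
      (∀ x, edist a (t x) ≤ 2 * ENNReal.ofReal ε) → s.Homotopic t) (f : C(Circle, N)) :
    Dec (cls (loop f)) (32 / 3 * energy ε f) := by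
  let F : C(ℝ, N) := f.comp Circle.exp
  have h0 : 0 < ENNReal.ofReal ε := by simpa using hε
  have hc : 0 < 2 * π / 3 := by positivity
  have h3 : 3 * (2 * π / 3) = 2 * π := by ring
  have hE : ∀ x, Circle.exp (x + 3 * (2 * π / 3)) = Circle.exp x := fun x => by
    rw [h3, Circle.exp_add_two_pi]
  have hF : ∀ x, F (x + 3 * (2 * π / 3)) = F x := fun x => congrArg f (hE x)
  have hp : F 0 = f 1 := congrArg f Circle.exp_zero
  have hT : F (3 * (2 * π / 3)) = f 1 := by rw [← hp, ← hF 0, zero_add]
  obtain ⟨η, hη, h1⟩ : ∃ η : ℝ, 0 < η ∧ ∀ x y, |y - x| ≤ η →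
      edist (F y) (F x) < ENNReal.ofReal ε := by
    obtain ⟨δ, hδ, h⟩ := Metric.mem_uniformity_dist.1 (Filter.mem_map.1
      (CompactSpace.uniformContinuous_of_continuous f.continuous (edist_mem_uniformity h0)))
    exact ⟨δ / 2, half_pos hδ, fun x y hxy => h (a := Circle.exp y) (b := Circle.exp x)
      (((dist_eq_norm _ _).trans_le (chord_le x y)).trans_lt (by linarith))⟩
  obtain ⟨k, hk⟩ := pow_unbounded_of_one_lt (2 * (2 * π / 3) / η) one_lt_two
  rw [div_lt_iff₀ hη] at hk
  obtain ⟨x, t, ht, h2⟩ := exists_wt (F := F) (ENNReal.ofReal ε) hc hF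
    (K := fun x y => if ENNReal.ofReal ε ≤ edist (F y) (F x) then
      ENNReal.ofReal (ε / ‖(Circle.exp y : ℂ) - Circle.exp x‖ ^ 2) else 0)
    (Measurable.ite (bad_meas F _) (ENNReal.measurable_ofReal.comp (measurable_const.div
      (Continuous.measurable (by fun_prop)))) measurable_const)
    (fun x y => by simp only [hF, hE]) (fun x h hh => by
      unfold chi
      split_ifs with h4
      · have h5 : 0 < ‖(Circle.exp (x + h) : ℂ) - Circle.exp x‖ := by
          rw [norm_pos_iff, sub_ne_zero]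
          intro h6
          have h7 : F (x + h) = F x := congrArg f (Subtype.ext h6)
          rw [h7, edist_self] at h4
          exact h0.not_ge h4
        have h6 := chord_le x (x + h)
        rw [add_sub_cancel_left, abs_of_pos hh] at h6
        rw [← ENNReal.ofReal_mul (sq_nonneg h)]
        refine ENNReal.ofReal_le_ofReal ?_
        rw [← mul_div_assoc, le_div_iff₀ (by positivity), mul_comm]
        exact mul_le_mul_of_nonneg_right (pow_le_pow_left₀ h5.le h6 2) hε.le
      · exact zero_le) k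
  have h4 := ok_wt (hp := hp) H1 H2 h1 k x t (by rw [abs_of_pos (hc.trans ht.1)]; linarith [ht.2])
  have h5 := ok_wt (hp := hp) H1 H2 h1 k (x + t) (3 * (2 * π / 3) - t)
    (by rw [abs_of_pos (by linarith [ht.2])]; linarith [ht.1])
  rw [add_add_sub_cancel] at h5
  have h6 : sg F 0 (3 * (2 * π / 3)) hp hT = loop f := by
    ext y
    refine congrArg F (?_ : AffineMap.lineMap 0 (3 * (2 * π / 3)) (y : ℝ) = 2 * π * y)
    rw [h3, AffineMap.lineMap_apply, vsub_eq_sub, vadd_eq_add, smul_eq_mul]
    ring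
  have h7 := (h4.top H2 hF hT h5).mono h2
  rwa [h6, h3] at h7

end Pool.Agent.Lib.MP_346ebc_an
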