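import Mathlib

/-! Gap potential, free homotopy decompositions and the Hurewicz pairing for loops. -/

open scoped Manifold ContDiff Topology ENNReal Bundle
open Set MeasureTheory Real

noncomputable section

namespace Pool.Agent.Lib.MP_346ebc_an

/-- The scaled gap potential `E_ε (f)`, the circle being parametrised by arc length. -/
def energy {N : Type} [EMetricSpace N] (ε : ℝ) (f : Circle → N) : ℝ≥0∞ :=
  ∫⁻ x in Ioc 0 (2 * π), ∫⁻ y in Ioc 0 (2 * π),
    if ENNReal.ofReal ε ≤ edist (f (Circle.exp y)) (f (Circle.exp x)) then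
      ENNReal.ofReal (ε / ‖(Circle.exp y : ℂ) - Circle.exp x‖ ^ 2) else 0

/-- The map `f` on the circle as a loop based at `f 1`. -/
def loop {N : Type} [TopologicalSpace N] (f : C(Circle, N)) : Path (f 1) (f 1) where
  toFun t := f (Circle.exp (2 * π * t))
  continuous_toFun := by fun_prop
  source' := by simp
  target' := by simp

/-- The class of a loop in the fundamental group. -/
def cls {N : Type} [TopologicalSpace N] {p : N} (γ : Path p p) : FundamentalGroup N p :=
  Path.Homotopic.Quotient.mk γ

/-- A loop `g` at some point `q` together with a path `c` from `p` to `q`. -/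
structure Piece {N : Type} [TopologicalSpace N] (p : N) where
  q : N
  c : Path p q
  g : Path q q

/-- The loop `c g c⁻¹` at `p`. -/
def Piece.conj {N : Type} [TopologicalSpace N] {p : N} (x : Piece p) : Path p p :=
  x.c.trans (x.g.trans x.c.symm)

/-- The length (total variation) of a path. -/
def len {N : Type} [EMetricSpace N] {a b : N} (γ : Path a b) : ℝ≥0∞ := eVariationOn γ univ

variable (E : Type) [NormedAddCommGroup E] [NormedSpace ℝ E] {N : Type} [TopologicalSpace N]
  [ChartedSpace E N]

/-- The one-form `om` read in the chart at `x`. -/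
def inChart (om : (x : N) → TangentSpace 𝓘(ℝ, E) x →L[ℝ] ℝ) (x : N) (y : E) : E →L[ℝ] ℝ :=
  (om ((chartAt E x).symm y)).comp (mfderiv 𝓘(ℝ, E) 𝓘(ℝ, E) (chartAt E x).symm y)

/-- `om` is a closed one-form of class `C¹`: in every chart it is `C¹` with symmetric derivative. -/
def ClosedForm (om : (x : N) → TangentSpace 𝓘(ℝ, E) x →L[ℝ] ℝ) : Prop :=
  ∀ x : N, ContDiffOn ℝ 1 (inChart E om x) (chartAt E x).target ∧ ∀ y ∈ (chartAt E x).target,
    ∀ u v : E, fderiv ℝ (inChart E om x) y u v = fderiv ℝ (inChart E om x) y v u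

/-- The integral of the pull-back of `om` over the circle. -/
def hur (g : Circle → N) (om : (x : N) → TangentSpace 𝓘(ℝ, E) x →L[ℝ] ℝ) : ℝ :=
  ∫ t in (0 : ℝ)..2 * π, om (g (Circle.exp t))
    (mfderiv 𝓘(ℝ, ℝ) 𝓘(ℝ, E) (fun s : ℝ => g (Circle.exp s)) t (1 : ℝ))

end Pool.Agent.Lib.MP_346ebc_an
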