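import Pool.Agent.Lib.MP_346ebc_an.Per

/-! Short paths, small loops and local primitives on a compact Riemannian manifold. -/

open scoped Manifold ContDiff Topology ENNReal NNReal Bundle
open Set Filter MeasureTheory Metric Manifold Bundle

set_option linter.unusedSectionVars false

noncomputable section

namespace Pool.Agent.Lib.MP_346ebc_an

variable (E : Type) [NormedAddCommGroup E] [NormedSpace ℝ E] {N : Type} [EMetricSpace N]
  [ChartedSpace E N]

/-- The part of a chart domain that is mapped to a ball. -/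
def box (x : N) (r : ℝ) : Set N :=
  (chartAt E x).source ∩ chartAt E x ⁻¹' ball (chartAt E x x) r

variable (N) in
theorem exists_box [CompactSpace N] : ∃ δ : ℝ≥0∞, 0 < δ ∧ ∀ a : N, ∃ (x : N) (r : ℝ),
    ball (chartAt E x x) r ⊆ (chartAt E x).target ∧ eball a δ ⊆ box E x r := by
  have h : ∀ x : N, ∃ r > 0, ball (chartAt E x x) r ⊆ (chartAt E x).target := fun x =>
    Metric.mem_nhds_iff.1 (chart_target_mem_nhds E x)
  choose r hr h using h
  obtain ⟨δ, hδ, h1⟩ := lebesgue_number_lemma_of_emetric_nhds (c := fun x : N => box E x (r x))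
    isCompact_univ fun x _ => inter_mem (chart_source_mem_nhds E x)
      (((chartAt E x).continuousAt (mem_chart_source E x)).preimage_mem_nhds
        (ball_mem_nhds _ (hr x)))
  exact ⟨δ, hδ, fun a => let ⟨x, hx⟩ := h1 a trivial; ⟨x, r x, h x, hx⟩⟩

variable {E}

theorem box_htpy {x a b : N} {r : ℝ} (h : ball (chartAt E x x) r ⊆ (chartAt E x).target)
    (s t : Path a b) (hs : ∀ y, s y ∈ box E x r) (ht : ∀ y, t y ∈ box E x r) : s.Homotopic t := by
  have c1 := (chartAt E x).continuousOn.comp_continuous s.continuous fun y => (hs y).1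
  have c2 := (chartAt E x).continuousOn.comp_continuous t.continuous fun y => (ht y).1
  refine ⟨{ toFun := fun y => (chartAt E x).symm (chartAt E x (s y.2) + (y.1 : ℝ) •
              (chartAt E x (t y.2) - chartAt E x (s y.2)))
            continuous_toFun := (chartAt E x).continuousOn_symm.comp_continuous
              ((c1.comp continuous_snd).add ((continuous_subtype_val.comp continuous_fst).smul
                ((c2.comp continuous_snd).sub (c1.comp continuous_snd)))) fun y =>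
              h ((convex_ball _ _).add_smul_sub_mem (hs y.2).2 (ht y.2).2 y.1.2)
            map_zero_left := fun y => by simp [(chartAt E x).left_inv (hs y).1]
            map_one_left := fun y => by simp [(chartAt E x).left_inv (ht y).1]
            prop' := fun u y hy => ?_ }⟩
  have e : t y = s y := by
    rcases hy with rfl | rfl <;> simp
  simp [e, (chartAt E x).left_inv (hs y).1]

variable [IsManifold 𝓘(ℝ, E) ∞ N]

/-- The integrand of a one-form along a curve. -/
def ig (om : N → E →L[ℝ] ℝ) (γ : ℝ → N) (t : ℝ) : ℝ :=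
  om (γ t) (mfderiv 𝓘(ℝ, ℝ) 𝓘(ℝ, E) γ t (1 : ℝ))

variable {om : N → E →L[ℝ] ℝ} {γ : ℝ → N} (hγ : ContMDiff 𝓘(ℝ, ℝ) 𝓘(ℝ, E) 1 γ) {x : N} {t : ℝ}

include hγ in
theorem loc_sm (ht : γ t ∈ (chartAt E x).source) : ContDiffAt ℝ 1 (chartAt E x ∘ γ) t :=
  (((contMDiffOn_chart (I := 𝓘(ℝ, E)) (n := 1)).contMDiffAt
    ((chartAt E x).open_source.mem_nhds ht)).comp t (hγ t)).contDiffAt

include hγ in
theorem ig_eq (ht : γ t ∈ (chartAt E x).source) :
    ig om γ t = inChart E om x (chartAt E x (γ t)) (deriv (chartAt E x ∘ γ) t) := by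
  have hm := mdifferentiable_chart (I := 𝓘(ℝ, E)) x
  have h1 := mfderiv_comp t (hm.mdifferentiableAt ht) ((hγ t).mdifferentiableAt one_ne_zero)
  rw [mfderiv_eq_fderiv] at h1
  have h2 := DFunLike.congr_fun (hm.symm_comp_deriv ht) (mfderiv 𝓘(ℝ, ℝ) 𝓘(ℝ, E) γ t (1 : ℝ))
  have h3 := congrArg (mfderiv 𝓘(ℝ, E) 𝓘(ℝ, E) (chartAt E x).symm (chartAt E x (γ t)))
    (DFunLike.congr_fun h1 (1 : ℝ))
  exact congrArg₂ (fun (a : N) (v : E) => om a v) ((chartAt E x).left_inv ht).symm
    (h3.trans h2).symm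

include hγ in
theorem ig_cont (ho : ClosedForm E om) : Continuous (ig om γ) := by
  refine continuous_iff_continuousAt.2 fun t => ?_
  have ht := mem_chart_source E (γ t)
  have h1 := loc_sm hγ ht
  have h2 : ContinuousAt (deriv (chartAt E (γ t) ∘ γ)) t :=
    (h1.fderiv_right (m := 0) le_rfl).continuousAt.clm_apply continuousAt_const
  have h3 := ((ho (γ t)).1.continuousOn.continuousAt (chart_target_mem_nhds E _)).comp
    (f := chartAt E (γ t) ∘ γ) h1.continuousAt
  refine (h3.clm_apply h2).congr ?_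
  filter_upwards [hγ.continuous.continuousAt.preimage_mem_nhds (chart_source_mem_nhds E (γ t))]
    with s hs using (ig_eq hγ hs).symm

theorem exists_pot (ho : ClosedForm E om) {δ : ℝ≥0∞} (hδ : ∀ a : N, ∃ (x : N) (r : ℝ),
    ball (chartAt E x x) r ⊆ (chartAt E x).target ∧ eball a δ ⊆ box E x r) :
    ∃ P : N → N → ℝ, ∀ (a : N) (γ : ℝ → N), ContMDiff 𝓘(ℝ, ℝ) 𝓘(ℝ, E) 1 γ → ∀ s t : ℝ,
      (∀ y ∈ uIcc s t, edist a (γ y) < δ) → ∫ y in s..t, ig om γ y = P a (γ t) - P a (γ s) := by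
  choose x r h1 h2 using hδ
  have h3 : ∀ a, ∃ p : E → ℝ, ∀ y ∈ ball (chartAt E (x a) (x a)) (r a),
      HasFDerivAt p (inChart E om (x a) y) y := fun a =>
    (convex_ball _ _).exists_forall_hasFDerivAt_of_fderiv_symmetric isOpen_ball
      (((ho (x a)).1.differentiableOn one_ne_zero).mono (h1 a)) fun y hy => (ho (x a)).2 y (h1 a hy)
  choose p hp using h3
  refine ⟨fun a b => p a (chartAt E (x a) b), fun a γ hγ s t h => ?_⟩
  refine intervalIntegral.integral_eq_sub_of_hasDerivAt (f := fun y => p a (chartAt E (x a) (γ y)))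
    (fun y hy => ?_) ((ig_cont hγ ho).intervalIntegrable _ _)
  have h4 := h2 a (mem_eball'.2 (h y hy))
  rw [ig_eq hγ h4.1]
  exact (hp a _ h4.2).comp_hasDerivAt y ((loc_sm hγ h4.1).differentiableAt one_ne_zero).hasDerivAt

variable [RiemannianBundle (fun x : N => TangentSpace 𝓘(ℝ, E) x)]
  [IsRiemannianManifold 𝓘(ℝ, E) N]

include hγ in
theorem edist_le_path {s t : ℝ} (h : s ≤ t) : edist (γ s) (γ t) ≤ pathELength 𝓘(ℝ, E) γ s t := by
  rw [IsRiemannianManifold.out (I := 𝓘(ℝ, E))]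
  exact riemannianEDist_le_pathELength hγ.contMDiffOn rfl rfl h

variable (E) in
theorem exists_curve {a b : N} {r : ℝ≥0∞} (h : edist a b < r) : ∃ γ : ℝ → N, γ 0 = a ∧ γ 1 = b ∧
    ContMDiff 𝓘(ℝ, ℝ) 𝓘(ℝ, E) 1 γ ∧ pathELength 𝓘(ℝ, E) γ 0 1 < r ∧
      ∀ y ∈ uIcc (0 : ℝ) 1, edist a (γ y) < r := by
  rw [IsRiemannianManifold.out (I := 𝓘(ℝ, E))] at h
  obtain ⟨γ, h0, h1, h2, h3, -⟩ := exists_lt_locally_constant_of_riemannianEDist_lt h zero_lt_one
  refine ⟨γ, h0, h1, h2, h3, fun y hy => ?_⟩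
  rw [uIcc_of_le zero_le_one] at hy
  exact h0 ▸ ((edist_le_path h2 hy.1).trans (pathELength_mono le_rfl hy.2)).trans_lt h3

include E in
variable (E) in
theorem exists_short (a b : N) {r : ℝ≥0∞} (h : edist b a < r) : ∃ s : Path a b, len s ≤ r := by
  obtain ⟨γ, h0, h1, h2, h3, -⟩ := exists_curve E (edist_comm b a ▸ h)
  refine ⟨⟨⟨fun t => γ t, h2.continuous.comp continuous_subtype_val⟩, h0, h1⟩,
    le_trans (iSup_le ?_) h3.le⟩
  rintro ⟨n, u, hu, -⟩
  refine le_trans (?_ : _ ≤ pathELength 𝓘(ℝ, E) γ (u 0) (u n))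
    (pathELength_mono (u 0).2.1 (u n).2.2)
  induction n with
  | zero => simp
  | succ n ih =>
    rw [Finset.sum_range_succ, ← pathELength_add (b := u n) (hu n.zero_le) (hu n.le_succ),
      edist_comm]
    exact add_le_add ih (edist_le_path h2 (hu n.le_succ))

theorem exists_coc [CompactSpace N] (ho : ClosedForm E om) {L : ℝ≥0}
    (hL : ∀ (x : N) (v : TangentSpace 𝓘(ℝ, E) x), |om x v| ≤ L * ‖v‖) :
    ∃ (w : N → N → ℝ) (δ : ℝ≥0∞), Coc w δ L ∧ ∀ γ : ℝ → N, ContMDiff 𝓘(ℝ, ℝ) 𝓘(ℝ, E) 1 γ →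
      Prim w γ fun t => ∫ y in (0 : ℝ)..t, ig om γ y := by
  obtain ⟨δ, hδ, h⟩ := exists_box E N
  obtain ⟨P, hP⟩ := exists_pot ho h
  have hh : δ / 2 ≤ δ := ENNReal.half_le_self
  refine ⟨fun a b => P a b - P a a, δ / 2, ⟨ENNReal.half_pos hδ.ne', fun a b c hab hbc => ?_,
    fun a b hab => ?_⟩, fun γ hγ s => ?_⟩
  · obtain ⟨γ, rfl, rfl, h2, -, h3⟩ := exists_curve E hbc
    have h4 := hP a γ h2 0 1 fun y hy => (edist_triangle a (γ 0) _).trans_lt
      ((ENNReal.add_lt_add hab (h3 y hy)).trans_eq (ENNReal.add_halves δ))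
    have h5 := hP (γ 0) γ h2 0 1 fun y hy => (h3 y hy).trans_le hh
    linarith
  · have := nhdsGT_neBot_of_exists_gt ⟨_, hab⟩
    refine ge_of_tendsto (x := 𝓝[>] edist a b) (((ENNReal.continuous_const_mul
      ENNReal.coe_ne_top).tendsto _).mono_left nhdsWithin_le_nhds) ?_
    filter_upwards [Ioo_mem_nhdsGT hab] with r hr
    obtain ⟨γ, rfl, rfl, h2, h4, h3⟩ := exists_curve E hr.1
    rw [← hP (γ 0) γ h2 0 1 fun y hy => (h3 y hy).trans (hr.2.trans_le hh),
      ← Real.enorm_eq_ofReal_abs, intervalIntegral.integral_of_le zero_le_one]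
    refine (enorm_integral_le_lintegral_enorm _).trans (le_trans ?_ (mul_le_mul_right h4.le _))
    rw [pathELength_eq_lintegral_mfderiv_Icc, ← lintegral_const_mul' _ _ ENNReal.coe_ne_top,
      restrict_Ioc_eq_restrict_Icc]
    refine lintegral_mono fun y => ?_
    rw [Real.enorm_eq_ofReal_abs, ← ofReal_norm, ← ENNReal.ofReal_coe_nnreal,
      ← ENNReal.ofReal_mul L.coe_nonneg]
    exact ENNReal.ofReal_le_ofReal (hL _ _)
  · obtain ⟨η, hη, h1⟩ := Metric.mem_nhds_iff.1
      (hγ.continuous.continuousAt.preimage_mem_nhds (eball_mem_nhds (γ s) hδ))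
    filter_upwards [ball_mem_nhds s hη] with t ht
    have hi := (ig_cont hγ ho).intervalIntegrable (μ := volume)
    rw [intervalIntegral.integral_interval_sub_left (hi _ _) (hi _ _)]
    exact hP _ γ hγ s t fun y hy =>
      mem_eball'.1 (h1 ((abs_sub_left_of_mem_uIcc hy).trans_lt ht))

end Pool.Agent.Lib.MP_346ebc_an
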