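import Pool.Agent.Lib.MP_346ebc_an.Tree

/-! Periods of a local cocycle along continuous paths. -/

open scoped ENNReal Topology unitInterval
open Set Filter Finset

set_option linter.unusedSectionVars false

noncomputable section

namespace Pool.Agent.Lib.MP_346ebc_an

variable {N : Type} [EMetricSpace N] {w : N → N → ℝ} {δ L : ℝ≥0∞} {a b c p : N}

/-- A local cocycle with a Lipschitz bound. -/
structure Coc (w : N → N → ℝ) (δ L : ℝ≥0∞) : Prop where
  pos : 0 < δ
  add : ∀ a b c, edist a b < δ → edist b c < δ → w a b + w b c = w a c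
  bd : ∀ a b, edist a b < δ → ENNReal.ofReal |w a b| ≤ L * edist a b

/-- A primitive of the cocycle along `F`. -/
def Prim (w : N → N → ℝ) {Y : Type} [TopologicalSpace Y] (F : Y → N) (Φ : Y → ℝ) : Prop :=
  ∀ y, ∀ᶠ z in 𝓝 y, Φ z - Φ y = w (F y) (F z)

/-- The period along a path. -/
def per (w : N → N → ℝ) (γ : I → N) : ℝ :=
  Classical.epsilon fun r => ∃ Φ, Prim w γ Φ ∧ Φ 1 - Φ 0 = r

section
variable {Y Z : Type} [TopologicalSpace Y] [TopologicalSpace Z] {F : Y → N} {Φ Ψ : Y → ℝ}

theorem Prim.comp (h : Prim w F Φ) {φ : Z → Y} (hφ : Continuous φ) : Prim w (F ∘ φ) (Φ ∘ φ) :=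
  fun z => hφ.continuousAt.eventually (h (φ z))

theorem Prim.unique [PreconnectedSpace Y] (h : Prim w F Φ) (k : Prim w F Ψ) (y z : Y) :
    Φ y - Φ z = Ψ y - Ψ z := by
  have h1 : IsLocallyConstant fun y => Φ y - Ψ y :=
    (IsLocallyConstant.iff_eventually_eq _).2 fun x => by
      filter_upwards [h x, k x] with y h1 h2
      linarith
  have h2 := h1.apply_eq_of_preconnectedSpace y z
  linarith

end

theorem Prim.per_eq {γ : I → N} {Φ : I → ℝ} (h : Prim w γ Φ) : per w γ = Φ 1 - Φ 0 := by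
  obtain ⟨Ψ, h1, h2⟩ := Classical.epsilon_spec
    (p := fun r => ∃ Φ, Prim w γ Φ ∧ Φ 1 - Φ 0 = r) ⟨_, Φ, h, rfl⟩
  exact h2.symm.trans (h1.unique h 1 0)

namespace Coc

variable (h : Coc w δ L)
include h

theorem self (a : N) : w a a = 0 := by
  have := h.add a a a (by simpa using h.pos) (by simpa using h.pos)
  linarith

theorem exists_prim {Y : Type} [PseudoMetricSpace Y] [CompactSpace Y] (G : C(I × Y, N))
    (h0 : ∀ y, G (0, y) = a) : ∃ (n : ℕ) (θ : ℕ → I), Monotone θ ∧
      (∀ y j, edist (G (θ j, y)) (G (θ (j + 1), y)) < δ) ∧ Prim w (fun y => G (1, y))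
        fun y => ∑ j ∈ range n, w (G (θ j, y)) (G (θ (j + 1), y)) := by
  obtain ⟨η, hη, h1⟩ := Metric.mem_uniformity_dist.1 (mem_map.1
    (CompactSpace.uniformContinuous_of_continuous G.continuous (edist_mem_uniformity h.pos)))
  replace h1 : ∀ x y, dist x y < η → edist (G x) (G y) < δ := fun x y k => h1 k
  obtain ⟨n, hn⟩ := exists_nat_one_div_lt hη
  have hp : (0 : ℝ) < n + 1 := by positivity
  let θ : ℕ → I := fun j => projIcc 0 1 zero_le_one ((j : ℝ) / (n + 1))
  have h2 : ∀ y j, edist (G (θ j, y)) (G (θ (j + 1), y)) < δ := fun y j => h1 _ _ (by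
    rw [Prod.dist_eq, dist_self, max_eq_left dist_nonneg]
    refine lt_of_le_of_lt (abs_projIcc_sub_projIcc zero_le_one) ?_
    rwa [← sub_div, Nat.cast_succ, sub_add_cancel_left, abs_div, abs_neg, abs_one, abs_of_pos hp])
  have t0 : θ 0 = 0 := by simp [θ]
  have t1 : θ (n + 1) = 1 := by simp [θ, hp.ne']
  refine ⟨n + 1, θ, fun i j hij => monotone_projIcc _ (by gcongr), h2, fun y => ?_⟩
  filter_upwards [Metric.ball_mem_nhds y hη] with z hz
  have h3 : ∀ s, edist (G (s, y)) (G (s, z)) < δ := fun s => h1 _ _ (by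
    rwa [Prod.dist_eq, dist_self, max_eq_right dist_nonneg, dist_comm])
  have h4 := sum_range_sub (fun j => w (G (θ j, y)) (G (θ j, z))) (n + 1)
  rw [t0, t1, h0, h0, h.self, sub_zero] at h4
  rw [← h4, ← sum_sub_distrib]
  refine sum_congr rfl fun j _ => ?_
  linarith [h.add _ _ _ (h3 (θ j)) (h2 z j), h.add _ _ _ (h2 y j) (h3 (θ (j + 1)))]

theorem per_le {γ : I → N} (hγ : Continuous γ) :
    (∃ Φ, Prim w γ Φ) ∧ ENNReal.ofReal |per w γ| ≤ L * eVariationOn γ univ := by
  obtain ⟨n, θ, h1, h2, h3⟩ := h.exists_prim (a := γ 0) ⟨fun x : I × I => γ (x.1 * x.2),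
    by fun_prop⟩ fun y => by simp
  simp only [ContinuousMap.coe_mk, one_mul] at h2 h3
  refine ⟨⟨_, h3⟩, ?_⟩
  rw [h3.per_eq]
  simp only [mul_one, mul_zero, h.self, sum_const_zero, sub_zero]
  refine (ENNReal.ofReal_le_ofReal (abs_sum_le_sum_abs _ _)).trans ?_
  rw [ENNReal.ofReal_sum_of_nonneg fun _ _ => abs_nonneg _]
  refine le_trans ?_ (mul_le_mul_right (eVariationOn.sum_le (n := n) h1 fun _ => mem_univ _) L)
  rw [mul_sum]
  refine sum_le_sum fun j _ => ?_
  rw [edist_comm]
  simpa only [mul_one] using h.bd _ _ (h2 1 j)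

theorem per_htpy (H : C(I × I, N))
    (e : ∀ s t, w (H (s, 1)) (H (t, 1)) = w (H (s, 0)) (H (t, 0))) :
    per w (fun t => H (0, t)) = per w fun t => H (1, t) := by
  obtain ⟨n, θ, -, -, h3⟩ := h.exists_prim (a := H (0, 0))
    ⟨fun x : I × I × I => H (x.1 * x.2.1, x.1 * x.2.2), by fun_prop⟩ fun y => by simp
  simp only [ContinuousMap.coe_mk, one_mul] at h3
  generalize (fun y : I × I => ∑ j ∈ range n, w (H (θ j * y.1, θ j * y.2))
    (H (θ (j + 1) * y.1, θ (j + 1) * y.2))) = Φ at h3
  have h4 := (h3.comp (φ := fun t : I => ((0 : I), t)) (by fun_prop)).per_eq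
  have h5 := (h3.comp (φ := fun t : I => ((1 : I), t)) (by fun_prop)).per_eq
  have h6 := h3.comp (φ := fun s : I => (s, (0 : I))) (by fun_prop)
  have h7 : Prim w ((fun y : I × I => H (y.1, y.2)) ∘ fun s : I => (s, (0 : I)))
      (Φ ∘ fun s : I => (s, (1 : I))) := fun s => by
    filter_upwards [h3.comp (φ := fun s : I => (s, (1 : I))) (by fun_prop) s] with t ht
    exact ht.trans (e s t)
  have h8 := h6.unique h7 1 0
  refine h4.trans (Eq.trans ?_ h5.symm)
  simp only [Function.comp_apply] at h8 ⊢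
  linarith

theorem per_congr {γ γ' : Path a b} (k : γ.Homotopic γ') : per w γ = per w γ' := by
  obtain ⟨H⟩ := k
  have h1 := h.per_htpy ⟨H, H.continuous⟩ fun s t => by
    simp only [ContinuousMap.coe_mk, H.source, H.target, h.self]
  simpa using h1

theorem per_trans (γ : Path a b) (γ' : Path b c) : per w (γ.trans γ') = per w γ + per w γ' := by
  obtain ⟨Φ, h1⟩ := (h.per_le (γ.trans γ').continuous).1
  have h2 := (h1.comp (φ := fun t : I => projIcc 0 1 zero_le_one ((t : ℝ) / 2))
    (continuous_projIcc.comp (by fun_prop))).per_eq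
  have h3 := (h1.comp (φ := fun t : I => projIcc 0 1 zero_le_one (((t : ℝ) + 1) / 2))
    (continuous_projIcc.comp (by fun_prop))).per_eq
  have e2 : (γ.trans γ') ∘ (fun t : I => projIcc 0 1 zero_le_one ((t : ℝ) / 2)) = γ :=
    funext fun t => (Path.extend_trans_of_le_half γ γ' (by linarith [t.2.2])).trans (by
      rw [mul_div_cancel₀ _ two_ne_zero, Path.extend_extends'])
  have e3 : (γ.trans γ') ∘ (fun t : I => projIcc 0 1 zero_le_one (((t : ℝ) + 1) / 2)) = γ' :=
    funext fun t => (Path.extend_trans_of_half_le γ γ' (by linarith [t.2.1])).trans (by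
      rw [mul_div_cancel₀ _ two_ne_zero, add_sub_cancel_right, Path.extend_extends'])
  rw [e2] at h2
  rw [e3] at h3
  rw [h1.per_eq, h2, h3]
  simp

theorem per_refl (a : N) : per w (Path.refl a) = 0 :=
  (Prim.per_eq (Φ := fun _ => 0) fun _ => .of_forall fun _ => by simp [h.self]).trans (sub_self _)

theorem per_conj (x : Piece p) : per w x.conj = per w x.g := by
  have h1 := h.per_congr (Path.Homotopic.trans_symm x.c)
  rw [h.per_trans, h.per_refl] at h1
  rw [Piece.conj, h.per_trans, h.per_trans]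
  linarith

theorem per_list (l : List (Piece p)) : ∀ γ : Path p p, cls γ = (l.map fun x => cls x.conj).prod →
    ENNReal.ofReal |per w γ| ≤ L * (l.map fun x => len x.g).sum := by
  induction l with
  | nil =>
    intro γ e
    rw [h.per_congr (Path.Homotopic.Quotient.exact (q := Path.refl p) e), h.per_refl]
    simp
  | cons x l ih =>
    intro γ e
    obtain ⟨β, hβ⟩ := Path.Homotopic.Quotient.mk_surjective (l.map fun x => cls x.conj).prod
    rw [List.map_cons, List.prod_cons, ← hβ] at e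
    rw [h.per_congr (Path.Homotopic.Quotient.exact (q := β.trans x.conj) e), h.per_trans,
      h.per_conj, List.map_cons, List.sum_cons, mul_add, add_comm (L * _)]
    refine (ENNReal.ofReal_le_ofReal (abs_add_le _ _)).trans (ENNReal.ofReal_add_le.trans ?_)
    exact add_le_add (ih β hβ) (h.per_le x.g.continuous).2

theorem per_free {f g : C(Circle, N)} (k : g.Homotopic f) : per w (loop g) = per w (loop f) := by
  obtain ⟨H⟩ := k
  have h1 := h.per_htpy ⟨fun x : I × I => H (x.1, Circle.exp (2 * Real.pi * x.2)), by fun_prop⟩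
    fun s t => by simp
  simp only [ContinuousMap.coe_mk, H.apply_zero, H.apply_one] at h1
  exact h1

end Coc

end Pool.Agent.Lib.MP_346ebc_an
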