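import Pool.Agent.Lib.MP_346ebc_an.Defs

/-! The induction along a dyadic triangulation. -/

open scoped ENNReal unitInterval
open Set
open Path.Homotopic.Quotient (mk mk_trans mk_symm mk_refl trans_assoc trans_symm symm_trans
  refl_trans trans_refl)

noncomputable section

namespace Pool.Agent.Lib.MP_346ebc_an

variable {N : Type} [EMetricSpace N] {a b c p : N}

theorem len_symm (γ : Path a b) : len γ.symm ≤ len γ :=
  eVariationOn.comp_le_of_antitoneOn γ (s := univ) (t := univ) unitInterval.symm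
    (fun _ _ _ _ h => unitInterval.symm_le_symm.2 h) (mapsTo_univ _ _)

theorem len_trans (γ : Path a b) (γ' : Path b c) : len (γ.trans γ') ≤ len γ + len γ' := by
  let h : I := ⟨1 / 2, by norm_num, by norm_num⟩
  rw [len, ← Iic_union_Ici (a := h), eVariationOn.union _ isGreatest_Iic isLeast_Ici]
  refine add_le_add ?_ ?_
  · rw [eVariationOn.congr (f := γ.trans γ') (s := Iic h)
      (g := γ ∘ fun t : I => projIcc 0 1 zero_le_one (2 * (t : ℝ))) fun t ht =>
      (Path.extend_extends' _ t).symm.trans (Path.extend_trans_of_le_half _ _ ht)]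
    exact eVariationOn.comp_le_of_monotoneOn γ _ (fun s _ t _ hst => monotone_projIcc _ (by
      have : (s : ℝ) ≤ t := hst
      linarith)) (mapsTo_univ _ _)
  · rw [eVariationOn.congr (f := γ.trans γ') (s := Ici h)
      (g := γ' ∘ fun t : I => projIcc 0 1 zero_le_one (2 * (t : ℝ) - 1)) fun t ht =>
      (Path.extend_extends' _ t).symm.trans (Path.extend_trans_of_half_le _ _ ht)]
    exact eVariationOn.comp_le_of_monotoneOn γ' _ (fun s _ t _ hst => monotone_projIcc _ (by
      have : (s : ℝ) ≤ t := hst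
      linarith)) (mapsTo_univ _ _)

theorem edist_le_len (γ : Path a b) (t : I) : edist a (γ t) ≤ len γ := by
  have h := eVariationOn.edist_le γ (mem_univ 0) (mem_univ t)
  rwa [γ.source] at h

/-- `u` is a product of conjugates of loops of total length at most `α`. -/
def Dec (u : FundamentalGroup N p) (α : ℝ≥0∞) : Prop :=
  ∃ l : List (Piece p), u = (l.map fun x => cls x.conj).prod ∧ (l.map fun x => len x.g).sum ≤ α

theorem Dec.one : Dec (1 : FundamentalGroup N p) 0 := ⟨[], rfl, le_rfl⟩

theorem Dec.mono {u : FundamentalGroup N p} {α β : ℝ≥0∞} (h : Dec u α) (k : α ≤ β) : Dec u β :=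
  let ⟨l, h1, h2⟩ := h
  ⟨l, h1, h2.trans k⟩

theorem Dec.mul {u v : FundamentalGroup N p} {α β : ℝ≥0∞} (h : Dec u α) (k : Dec v β) :
    Dec (u * v) (α + β) := by
  obtain ⟨l, h1, h2⟩ := h
  obtain ⟨m, k1, k2⟩ := k
  refine ⟨l ++ m, by rw [List.map_append, List.prod_append, h1, k1], ?_⟩
  rw [List.map_append, List.sum_append]
  exact add_le_add h2 k2

/-- The class of `c g c⁻¹`. -/
def cj (c : Path p a) (g : Path a a) : FundamentalGroup N p :=
  (mk c).trans ((mk g).trans (mk c).symm)

theorem Dec.conj (c : Path p a) (g : Path a a) : Dec (cj c g) (len g) :=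
  ⟨[⟨a, c, g⟩], (mul_one (cls _)).symm, by simp⟩

theorem q_symm (γ : Path.Homotopic.Quotient a b) (δ : Path.Homotopic.Quotient b c) :
    (γ.trans δ).symm = δ.symm.trans γ.symm := by
  induction γ using Path.Homotopic.Quotient.ind
  induction δ using Path.Homotopic.Quotient.ind
  rw [← mk_trans, ← mk_symm, Path.trans_symm]
  rfl

theorem q_left (γ : Path.Homotopic.Quotient a b) (δ : Path.Homotopic.Quotient b c) :
    γ.symm.trans (γ.trans δ) = δ := by
  rw [← trans_assoc, symm_trans, refl_trans]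

theorem q_right (γ : Path.Homotopic.Quotient a b) (δ : Path.Homotopic.Quotient a c) :
    γ.trans (γ.symm.trans δ) = δ := by
  rw [← trans_assoc, trans_symm, refl_trans]

/-- The loop `B c⁻¹ A⁻¹`. -/
def gap (A : Path p a) (B : Path p b) (c : Path a b) : FundamentalGroup N p :=
  (mk B).trans ((mk c).symm.trans (mk A).symm)

theorem gap_trans (A : Path p a) (B : Path p b) (C : Path p c) (s : Path a b) (t : Path b c) :
    gap A C (s.trans t) = gap A B s * gap B C t := by
  simp only [gap, FundamentalGroup.mul_def, mk_trans, q_symm, trans_assoc,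
    q_left]

theorem gap_swap (A : Path p a) (B : Path p b) (s t : Path a b) :
    gap A B s = gap A B t * cj B (s.symm.trans t) := by
  simp only [gap, cj, FundamentalGroup.mul_def, mk_trans, mk_symm, trans_assoc, q_left, q_right]

theorem gap_congr (A : Path p a) (B : Path p b) {s t : Path a b} (h : s.Homotopic t) :
    gap A B s = gap A B t := by
  rw [gap, gap, Path.Homotopic.Quotient.eq.2 h]

variable (F : C(ℝ, N))

/-- The restriction of `F` to a segment. -/
def sg (u v : ℝ) (ha : F u = a) (hb : F v = b) : Path a b :=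
  ((Path.segment u v).map F.continuous).cast ha.symm hb.symm

theorem sg_trans (u v w : ℝ) (ha : F u = a) (hb : F v = b) (hc : F w = c) :
    mk (sg F u w ha hc) =
      (mk (sg F u v ha hb)).trans (mk (sg F v w hb hc)) := by
  subst ha hb hc
  have h := (SimplyConnectedSpace.paths_homotopic (Path.segment u w)
    ((Path.segment u v).trans (Path.segment v w))).map F
  rw [Path.map_trans] at h
  exact Path.Homotopic.Quotient.eq.2 h

variable (hp : F 0 = p)

/-- A path of length at most `β` replaces `F` on `[u, v]` at the price `α`. -/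
def R (u v : ℝ) (α β : ℝ≥0∞) : Prop := ∃ (a b : N) (ha : F u = a) (hb : F v = b) (c : Path a b),
  len c ≤ β ∧ Dec (gap (sg F 0 u hp ha) (sg F 0 v hp hb) c) α

/-- The invariant of the induction. -/
def Ok (e : ℝ≥0∞) (u v : ℝ) (W : ℝ≥0∞) : Prop :=
  R F hp u v (4 * W) e ∨ ∃ α β, α + β + 2 * e ≤ 4 * W ∧ R F hp u v α β

/-- The weight of an edge. -/
def chi (e : ℝ≥0∞) (x y : ℝ) : ℝ≥0∞ := if e ≤ edist (F y) (F x) then e else 0

/-- The total weight of the edges of a dyadic tree. -/
def wt (e : ℝ≥0∞) : ℕ → ℝ → ℝ → ℝ≥0∞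
  | 0, _, _ => 0
  | k + 1, x, h => chi F e x (x + h) + (wt e k x (h / 2) + wt e k (x + h / 2) (h / 2))

variable {F hp} {u v w : ℝ} {α β α' β' e W W' : ℝ≥0∞}

theorem R.trans (h : R F hp u v α β) (k : R F hp v w α' β') : R F hp u w (α + α') (β + β') := by
  obtain ⟨_, _, rfl, rfl, s, h1, h2⟩ := h
  obtain ⟨_, _, rfl, rfl, t, k1, k2⟩ := k
  exact ⟨_, _, rfl, rfl, s.trans t, (len_trans s t).trans (add_le_add h1 k1),
    gap_trans _ (sg F 0 v hp rfl) _ s t ▸ h2.mul k2⟩

theorem Ok.join (h : Ok F hp e u v W) (k : Ok F hp e v w W') :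
    R F hp u w (4 * (W + W')) (2 * e) ∨ ∃ α β, α + β + e ≤ 4 * (W + W') ∧ R F hp u w α β := by
  rw [mul_add]
  rcases h with h | ⟨α, β, h0, h⟩ <;> rcases k with k | ⟨α', β', k0, k⟩
  · exact .inl (two_mul e ▸ h.trans k)
  · exact .inr ⟨_, _, le_trans (le_of_eq (by ring)) (add_le_add le_rfl k0), h.trans k⟩
  · exact .inr ⟨_, _, le_trans (le_of_eq (by ring)) (add_le_add h0 le_rfl), h.trans k⟩
  · refine .inr ⟨_, _, le_trans ?_ (add_le_add h0 k0), h.trans k⟩
    exact le_trans (le_self_add (b := 3 * e)) (le_of_eq (by ring))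

variable (H1 : ∀ a b : N, edist b a < e → ∃ s : Path a b, len s ≤ e)
  (H2 : ∀ (a b : N) (s t : Path a b), (∀ x, edist a (s x) ≤ 2 * e) → (∀ x, edist a (t x) ≤ 2 * e) →
    s.Homotopic t)

theorem le_two (e : ℝ≥0∞) : e ≤ 2 * e := two_mul e ▸ le_self_add

include H1 H2 in
theorem Ok.step (h : Ok F hp e u v W) (k : Ok F hp e v w W') :
    Ok F hp e u w (chi F e u w + (W + W')) := by
  unfold chi
  split_ifs with h0
  · rcases h.join k with h1 | ⟨α, β, h1, h2⟩
    · exact .inr ⟨_, _, le_of_eq (by ring), h1⟩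
    · refine .inr ⟨_, _, ?_, h2⟩
      calc α + β + 2 * e = α + β + e + e := by ring
        _ ≤ 4 * (W + W') + e := add_le_add h1 le_rfl
        _ ≤ 4 * (W + W') + e + 3 * e := le_self_add
        _ = _ := by ring
  · obtain ⟨s, hs⟩ := H1 _ _ (not_le.1 h0)
    rw [zero_add]
    rcases h.join k with ⟨_, _, rfl, rfl, t, h1, h2⟩ | ⟨α, β, h0, _, _, rfl, rfl, t, h1, h2⟩
    · exact .inl ⟨_, _, rfl, rfl, s, hs, gap_congr _ _ (H2 _ _ t s
        (fun x => (edist_le_len t x).trans h1)
        fun x => (edist_le_len s x).trans (hs.trans (le_two e))) ▸ h2⟩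
    · refine .inl ⟨_, _, rfl, rfl, s, hs, ?_⟩
      rw [gap_swap _ _ s t]
      refine (h2.mul (Dec.conj _ _)).mono (le_trans ?_ h0)
      rw [add_assoc, add_comm β]
      exact add_le_add le_rfl ((len_trans _ _).trans (add_le_add ((len_symm s).trans hs) h1))

include H1 H2 in
theorem ok_wt {η : ℝ} (hη : ∀ x y, |y - x| ≤ η → edist (F y) (F x) < e) (k : ℕ) :
    ∀ x h : ℝ, |h| ≤ 2 ^ k * η → Ok F hp e x (x + h) (wt F e k x h) := by
  induction k with
  | zero =>
    intro x h hh
    rw [pow_zero, one_mul] at hh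
    obtain ⟨s, hs⟩ := H1 _ _ (hη x (x + h) (by rwa [add_sub_cancel_left]))
    refine .inl ⟨_, _, rfl, rfl, s, hs, ?_⟩
    rw [gap_congr _ _ (H2 _ _ s (sg F x (x + h) rfl rfl)
      (fun y => (edist_le_len s y).trans (hs.trans (le_two e))) fun y => ?_), gap,
      sg_trans F 0 x (x + h) hp rfl rfl, trans_assoc, q_right, trans_symm]
    · exact Dec.one.mono zero_le
    · rw [edist_comm]
      refine (hη x (AffineMap.lineMap x (x + h) (y : ℝ)) ?_).le.trans (le_two e)
      rw [AffineMap.lineMap_apply, vsub_eq_sub, vadd_eq_add, add_sub_cancel_left,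
        add_sub_cancel_right, smul_eq_mul, abs_mul, abs_of_nonneg y.2.1]
      exact (mul_le_of_le_one_left (abs_nonneg h) y.2.2).trans hh
  | succ k ih =>
    intro x h hh
    have h1 : |h / 2| ≤ 2 ^ k * η := by
      rw [abs_div, abs_two, pow_succ] at *
      linarith
    have h2 := (ih x _ h1).step H1 H2 (ih (x + h / 2) _ h1)
    rwa [add_assoc, add_halves] at h2

include H2 in
theorem Ok.top {T : ℝ} (hF : ∀ x, F (x + T) = F x) (hT : F T = p) (h : Ok F hp e u v W)
    (k : Ok F hp e v (u + T) W') : Dec (cls (sg F 0 T hp hT)) (4 * (W + W')) := by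
  have key : ∀ (a : N) (ha : F u = a) (hb : F (u + T) = a) (t : Path a a),
      cls (sg F 0 T hp hT) = cj (sg F 0 u hp ha) t *
        gap (sg F 0 u hp ha) (sg F 0 (u + T) hp hb) t := fun a ha hb t => by
    have h1 : sg F T (u + T) hT hb = sg F 0 u hp ha := by
      ext y
      refine (congrArg F ?_).trans (hF (AffineMap.lineMap 0 u (y : ℝ)))
      simp [AffineMap.lineMap_apply]
    simp only [gap, cls, cj, FundamentalGroup.mul_def, sg_trans F 0 T (u + T) hp hT hb, h1,
      trans_assoc, q_left, trans_symm, trans_refl]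
  rcases h.join k with ⟨a, b, ha, hb, t, h1, h2⟩ | ⟨α, β, h0, a, b, ha, hb, t, h1, h2⟩
  · obtain rfl : a = b := ha.symm.trans ((hF u).symm.trans hb)
    rw [key a ha hb t, cj, Path.Homotopic.Quotient.eq.2 (H2 _ _ t (Path.refl a)
      (fun x => (edist_le_len t x).trans h1)
      fun x => by simp), mk_refl, refl_trans, trans_symm]
    exact (Dec.one.mul h2).mono (zero_add _).le
  · obtain rfl : a = b := ha.symm.trans ((hF u).symm.trans hb)
    rw [key a ha hb t]
    exact ((Dec.conj _ t).mul h2).mono (((add_le_add h1 le_rfl).trans_eq (add_comm _ _)).trans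
      (le_self_add.trans h0))

end Pool.Agent.Lib.MP_346ebc_an
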